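import Pool.Agent.W657.TG.Reg

/-!
# The twisted convolution algebra and its C*-completions
-/

set_option autoImplicit false

open Topology Filter Set Pool.Agent.W657.TG

namespace Pool.Agent.Q193.BH

universe u v

variable {X G S : Type u} [TopologicalSpace X] [TopologicalSpace G] [TopologicalSpace S]
  {𝒢 : TopGpd X G} (tw : Twist 𝒢 S)

theorem isSection_zero : tw.IsSection (0 : S → ℂ) :=
  ⟨continuous_zero, HasCompactSupport.zero, fun z σ => by simp⟩

theorem isSection_add {f g : S → ℂ} (hf : tw.IsSection f) (hg : tw.IsSection g) :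
    tw.IsSection (f + g) :=
  ⟨hf.continuous.add hg.continuous, hf.hasCompactSupport.add hg.hasCompactSupport, fun z σ => by
    simp only [Pi.add_apply, hf.equivariant, hg.equivariant]; ring⟩

theorem isSection_smul (c : ℂ) {f : S → ℂ} (hf : tw.IsSection f) : tw.IsSection (c • f) :=
  ⟨hf.continuous.const_smul c, by
    have := hf.hasCompactSupport
    exact this.mono (fun x hx => by
      simp only [Function.mem_support, Pi.smul_apply, smul_eq_mul, ne_eq, mul_eq_zero, not_or]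
        at hx ⊢
      exact hx.2), fun z σ => by
    simp only [Pi.smul_apply, smul_eq_mul, hf.equivariant]; ring⟩

/-- The vector space `C_c(G, Σ)`. -/
def Cc : Submodule ℂ (S → ℂ) where
  carrier := {f | tw.IsSection f}
  add_mem' := isSection_add tw
  zero_mem' := isSection_zero tw
  smul_mem' := fun c _ hf => isSection_smul tw c hf

open Classical in
/-- The twisted convolution
`(f * g)(σ) = ∑_{γ ∈ G, s(γ) = s(σ)} f(σ τ⁻¹) g(τ)`, where `τ ∈ Σ` is a lift of `γ`. -/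
noncomputable def conv (f g : S → ℂ) (σ : S) : ℂ :=
  ∑' γ : G, if 𝒢.s γ = tw.gpd.s σ then
    f (tw.gpd.mul σ (tw.gpd.inv (tw.lift γ))) * g (tw.lift γ) else 0

/-- The involution `f*(σ) = conj (f(σ⁻¹))`. -/
noncomputable def invol (f : S → ℂ) (σ : S) : ℂ := (starRingEnd ℂ) (f (tw.gpd.inv σ))

/-- A `*`-homomorphism from `C_c(G, Σ)` into the `*`-algebra `A`. -/
structure IsStarHom {A : Type*} [NonUnitalRing A] [StarRing A] [Module ℂ A]
    (ρ : Cc tw →ₗ[ℂ] A) : Prop where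
  map_mul : ∀ f g h : Cc tw, (h : S → ℂ) = conv tw f g → ρ h = ρ f * ρ g
  map_star : ∀ f g : Cc tw, (g : S → ℂ) = invol tw f → ρ g = star (ρ f)

/-- `ι : C_c(G, Σ) → A` identifies the C*-algebra `A` with the full twisted groupoid C*-algebra
`C*(G, Σ)`: it is a `*`-homomorphism with dense range, and `‖ι f‖` is the supremum of `‖ρ f‖` over
all `*`-representations `ρ` of `C_c(G, Σ)` on Hilbert spaces. -/
structure IsFull {A : Type v} [NormedRing A] [StarRing A] [NormedAlgebra ℂ A]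
    (ι : Cc tw →ₗ[ℂ] A) : Prop where
  isStarHom : IsStarHom tw ι
  denseRange : DenseRange ι
  isLUB : ∀ f, IsLUB {x : ℝ | ∃ (K : Type u) (_ : NormedAddCommGroup K)
    (_ : InnerProductSpace ℂ K) (_ : CompleteSpace K) (ρ : Cc tw →ₗ[ℂ] (K →L[ℂ] K)),
    IsStarHom tw ρ ∧ x = ‖ρ f‖} ‖ι f‖

/-! ## Closure under the involution -/

theorem isSection_invol {f : S → ℂ} (hf : tw.IsSection f) : tw.IsSection (invol tw f) := by
  refine ⟨Complex.continuous_conj.comp (hf.continuous.comp tw.gpd.continuous_inv), ?_, ?_⟩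
  · refine HasCompactSupport.intro' (K := tw.gpd.inv '' (tsupport f))
      (hf.hasCompactSupport.isCompact.image tw.gpd.continuous_inv) ?_ ?_
    · have : tw.gpd.inv '' (tsupport f) = tw.gpd.inv ⁻¹' (tsupport f) := by
        ext σ
        constructor
        · rintro ⟨τ, hτ, rfl⟩
          show tw.gpd.inv (tw.gpd.inv τ) ∈ tsupport f
          rwa [TopGpd.inv_inv]
        · intro h
          exact ⟨_, h, TopGpd.inv_inv _⟩
      rw [this]
      exact (isClosed_tsupport f).preimage tw.gpd.continuous_inv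
    · intro σ hσ
      unfold invol
      have : tw.gpd.inv σ ∉ tsupport f := fun h => hσ ⟨_, h, TopGpd.inv_inv _⟩
      rw [image_eq_zero_of_notMem_tsupport this, map_zero]
  · intro z σ
    unfold invol
    rw [tw.inv_act, hf.equivariant, map_mul, Complex.conj_conj, Circle.coe_inv_eq_conj]

/-! ## Closure under the convolution -/

section conv

variable {tw}

/-- the summand of the convolution depends only on the class of the lift -/
theorem term_act {f g : S → ℂ} (hf : tw.IsSection f) (hg : tw.IsSection g) {σ τ : S} (z : Circle)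
    (h : tw.gpd.s τ = tw.gpd.s σ) :
    f (tw.gpd.mul σ (tw.gpd.inv (tw.act z τ))) * g (tw.act z τ)
      = f (tw.gpd.mul σ (tw.gpd.inv τ)) * g τ := by
  have e : tw.gpd.s σ = tw.gpd.r (tw.gpd.inv τ) := by rw [tw.gpd.r_inv, h]
  rw [tw.inv_act, tw.mul_act_right _ e, hf.equivariant, hg.equivariant]
  have hz : (starRingEnd ℂ) ((z⁻¹ : Circle) : ℂ) * (starRingEnd ℂ) (z : ℂ) = 1 := by
    rw [← map_mul, ← Circle.coe_mul]
    simp
  linear_combination (f (tw.gpd.mul σ (tw.gpd.inv τ)) * g τ) * hz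

theorem term_lift {f g : S → ℂ} (hf : tw.IsSection f) (hg : tw.IsSection g) {σ τ : S}
    (h : tw.gpd.s τ = tw.gpd.s σ) :
    f (tw.gpd.mul σ (tw.gpd.inv (tw.lift (tw.proj τ)))) * g (tw.lift (tw.proj τ))
      = f (tw.gpd.mul σ (tw.gpd.inv τ)) * g τ := by
  obtain ⟨z, hz⟩ := tw.exists_act (tw.proj_lift (tw.proj τ))
  rw [hz]
  exact term_act hf hg z h

theorem continuousOn_psi {f g : S → ℂ} (hf : tw.IsSection f) (hg : tw.IsSection g) :
    ContinuousOn (fun p : S × S => f (tw.gpd.mul p.1 (tw.gpd.inv p.2)) * g p.2)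
      {p | tw.gpd.s p.1 = tw.gpd.s p.2} := by
  have h1 : ContinuousOn (fun p : S × S => tw.gpd.mul p.1 (tw.gpd.inv p.2))
      {p | tw.gpd.s p.1 = tw.gpd.s p.2} := by
    have h2 : Continuous fun p : S × S => (p.1, tw.gpd.inv p.2) :=
      continuous_fst.prodMk (tw.gpd.continuous_inv.comp continuous_snd)
    refine tw.gpd.continuous_mul.comp h2.continuousOn ?_
    intro p hp
    show tw.gpd.s p.1 = tw.gpd.r (tw.gpd.inv p.2)
    rw [tw.gpd.r_inv]
    exact hp
  exact (hf.continuous.comp_continuousOn h1).mul (hg.continuous.comp continuous_snd).continuousOn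

theorem continuousAt_term {f g : S → ℂ} (hf : tw.IsSection f) (hg : tw.IsSection g) {γ : S → G}
    {σ₀ : S} (hγ : ContinuousAt γ σ₀) (hs : ∀ᶠ σ in 𝓝 σ₀, 𝒢.s (γ σ) = tw.gpd.s σ) :
    ContinuousAt (fun σ => f (tw.gpd.mul σ (tw.gpd.inv (tw.lift (γ σ)))) * g (tw.lift (γ σ))) σ₀ := by
  have hs0 : 𝒢.s (γ σ₀) = tw.gpd.s σ₀ := hs.self_of_nhds
  have hD : ((σ₀, tw.lift (γ σ₀)) : S × S) ∈ {p : S × S | tw.gpd.s p.1 = tw.gpd.s p.2} := by
    show tw.gpd.s σ₀ = tw.gpd.s (tw.lift (γ σ₀))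
    rw [tw.s_lift, hs0]
  have h1 := continuousOn_psi hf hg _ hD
  intro O hO
  have h2 := h1 hO
  rw [Filter.mem_map, mem_nhdsWithin_iff_exists_mem_nhds_inter] at h2
  obtain ⟨N, hN, hNO⟩ := h2
  rw [nhds_prod_eq, Filter.mem_prod_iff] at hN
  obtain ⟨A, hA, B, hB, hAB⟩ := hN
  have h3 : tw.proj '' B ∈ 𝓝 (γ σ₀) := by
    have := tw.isOpenMap_proj.image_mem_nhds hB
    rwa [tw.proj_lift] at this
  rw [Filter.mem_map]
  filter_upwards [hA, hγ h3, hs] with σ hσ1 hσ2 hσ3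
  obtain ⟨τ, hτ, hτγ⟩ := hσ2
  have h4 : tw.gpd.s τ = tw.gpd.s σ := by rw [← tw.s_proj, hτγ, hσ3]
  have h5 := term_lift hf hg h4
  rw [hτγ] at h5
  show _ * _ ∈ O
  rw [h5]
  have h6 : ((σ, τ) : S × S) ∈ N ∩ {p : S × S | tw.gpd.s p.1 = tw.gpd.s p.2} :=
    ⟨hAB ⟨hσ1, hτ⟩, h4.symm⟩
  exact hNO h6

theorem continuous_conv [T2Space G] (h𝒢 : 𝒢.Etale) {f g : S → ℂ} (hf : tw.IsSection f)
    (hg : tw.IsSection g) : Continuous (conv tw f g) := by
  classical
  have : T2Space X := TopGpd.t2_units 𝒢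
  set C : Set G := tw.proj '' (tsupport g) with hC
  have hCc : IsCompact C := hg.hasCompactSupport.isCompact.image tw.continuous_proj
  have hgC : ∀ γ, γ ∉ C → g (tw.lift γ) = 0 := by
    intro γ hγ
    by_contra h
    exact hγ ⟨_, subset_tsupport g h, tw.proj_lift γ⟩
  rw [continuous_iff_continuousAt]
  intro σ₀
  obtain ⟨N, hN⟩ := TopGpd.finite_fibre h𝒢.1 hCc
  set Φ : Set G := {γ ∈ C | 𝒢.s γ = tw.gpd.s σ₀} with hΦ
  have hΦf : Φ.Finite := (hN _).1
  obtain ⟨U, hU, hUd⟩ := hΦf.t2_separation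
  choose e he hes using h𝒢.1
  set V : G → Set G := fun γ => U γ ∩ (e γ).source with hV
  have hVo : ∀ γ, IsOpen (V γ) := fun γ => (hU γ).2.inter (e γ).open_source
  have hVm : ∀ γ, γ ∈ V γ := fun γ => ⟨(hU γ).1, he γ⟩
  set K : Set G := C \ ⋃ γ ∈ Φ, V γ with hK
  have hKc : IsCompact K := hCc.diff (isOpen_biUnion fun γ _ => hVo γ)
  have hKs : IsClosed (𝒢.s '' K) := (hKc.image 𝒢.continuous_s).isClosed
  set W : Set X := (𝒢.s '' K)ᶜ ∩ ⋂ γ ∈ Φ, 𝒢.s '' (V γ) with hW
  have hWo : IsOpen W := by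
    refine hKs.isOpen_compl.inter ?_
    exact hΦf.isOpen_biInter fun γ _ => h𝒢.1.isOpenMap _ (hVo γ)
  have hx0 : tw.gpd.s σ₀ ∈ W := by
    refine ⟨?_, ?_⟩
    · rintro ⟨γ, hγK, hγ⟩
      apply hγK.2
      rw [mem_iUnion₂]
      exact ⟨γ, ⟨hγK.1, hγ⟩, hVm γ⟩
    · rw [mem_iInter₂]
      intro γ hγ
      exact ⟨γ, hVm γ, hγ.2⟩
  -- the local sections
  set ψ : G → S → G := fun i σ => (e i).symm (tw.gpd.s σ) with hψ
  have hψV : ∀ i ∈ Φ, ∀ σ, tw.gpd.s σ ∈ W → ψ i σ ∈ V i ∧ 𝒢.s (ψ i σ) = tw.gpd.s σ := by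
    intro i hi σ hσ
    obtain ⟨γ, hγV, hγ⟩ := (mem_iInter₂.1 hσ.2) i hi
    have h1 : ψ i σ = γ := by
      show (e i).symm (tw.gpd.s σ) = γ
      rw [← hγ]
      have h2 : 𝒢.s γ = e i γ := congrFun (hes i) γ
      rw [h2, (e i).left_inv hγV.2]
    rw [h1]
    exact ⟨hγV, hγ⟩
  have hψu : ∀ i ∈ Φ, ∀ σ, ∀ γ ∈ V i, 𝒢.s γ = tw.gpd.s σ → ψ i σ = γ := by
    intro i _ σ γ hγ h
    show (e i).symm (tw.gpd.s σ) = γ
    rw [← h]
    have h2 : 𝒢.s γ = e i γ := congrFun (hes i) γ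
    rw [h2, (e i).left_inv hγ.2]
  have hWn : ∀ᶠ σ in 𝓝 σ₀, tw.gpd.s σ ∈ W :=
    tw.gpd.continuous_s.continuousAt.eventually (hWo.mem_nhds hx0)
  have hkey : ∀ σ, tw.gpd.s σ ∈ W → conv tw f g σ = ∑ i ∈ hΦf.toFinset,
      f (tw.gpd.mul σ (tw.gpd.inv (tw.lift (ψ i σ)))) * g (tw.lift (ψ i σ)) := by
    intro σ hσ
    have hinj : Set.InjOn (fun i => ψ i σ) (hΦf.toFinset : Set G) := by
      intro i hi j hj hij
      rw [Finset.mem_coe, Set.Finite.mem_toFinset] at hi hj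
      by_contra hne
      have h1 := hUd hi hj hne
      have h2 := (hψV i hi σ hσ).1.1
      have h3 := (hψV j hj σ hσ).1.1
      have hij' : ψ i σ = ψ j σ := hij
      rw [← hij'] at h3
      exact (Set.disjoint_left.1 h1) h2 h3
    set F : G → ℂ := fun γ => if 𝒢.s γ = tw.gpd.s σ then
          f (tw.gpd.mul σ (tw.gpd.inv (tw.lift γ))) * g (tw.lift γ) else 0 with hF
    have h0 : ∀ γ ∉ hΦf.toFinset.image (fun i => ψ i σ), F γ = 0 := by
      intro γ hγ
      simp only [hF]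
      split_ifs with h
      · by_cases hγC : γ ∈ C
        · exfalso
          have hγK : γ ∉ K := fun hk => hσ.1 ⟨γ, hk, h⟩
          have h2 : γ ∈ ⋃ γ ∈ Φ, V γ := by
            by_contra h3
            exact hγK ⟨hγC, h3⟩
          obtain ⟨i, hi, hγi⟩ := mem_iUnion₂.1 h2
          apply hγ
          rw [Finset.mem_image]
          exact ⟨i, (Set.Finite.mem_toFinset hΦf).2 hi, hψu i hi σ γ hγi h⟩
        · rw [hgC γ hγC, mul_zero]
      · rfl
    have h1 : conv tw f g σ = ∑ γ ∈ hΦf.toFinset.image (fun i => ψ i σ), F γ := by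
      have h2 : conv tw f g σ = ∑' γ, F γ := by
        unfold conv
        refine tsum_congr fun γ => ?_
        simp only [hF]
      rw [h2]
      exact tsum_eq_sum h0
    rw [h1, Finset.sum_image hinj]
    refine Finset.sum_congr rfl fun i hi => ?_
    rw [Set.Finite.mem_toFinset] at hi
    simp only [hF]
    rw [if_pos (hψV i hi σ hσ).2]
  have hcont : ContinuousAt (fun σ => ∑ i ∈ hΦf.toFinset,
      f (tw.gpd.mul σ (tw.gpd.inv (tw.lift (ψ i σ)))) * g (tw.lift (ψ i σ))) σ₀ := by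
    refine tendsto_finsetSum _ fun i hi => ?_
    rw [Set.Finite.mem_toFinset] at hi
    apply continuousAt_term hf hg
    · have h1 : ContinuousAt (e i).symm (tw.gpd.s σ₀) := by
        apply (e i).continuousAt_symm
        have h2 : tw.gpd.s σ₀ = e i i := by rw [← congrFun (hes i) i, hi.2]
        rw [h2]
        exact (e i).map_source (he i)
      exact ContinuousAt.comp (f := tw.gpd.s) h1 tw.gpd.continuous_s.continuousAt
    · filter_upwards [hWn] with σ hσ
      exact (hψV i hi σ hσ).2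
  refine hcont.congr ?_
  filter_upwards [hWn] with σ hσ
  exact (hkey σ hσ).symm

theorem exists_of_conv_ne {f g : S → ℂ} {σ : S} (h : conv tw f g σ ≠ 0) :
    ∃ γ, 𝒢.s γ = tw.gpd.s σ ∧ f (tw.gpd.mul σ (tw.gpd.inv (tw.lift γ))) ≠ 0 ∧
      g (tw.lift γ) ≠ 0 := by
  by_contra hno
  push Not at hno
  apply h
  unfold conv
  refine (tsum_congr fun γ => ?_).trans tsum_zero
  split_ifs with h1
  · by_cases h2 : f (tw.gpd.mul σ (tw.gpd.inv (tw.lift γ))) = 0
    · rw [h2, zero_mul]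
    · rw [hno γ h1 h2, mul_zero]
  · rfl

theorem isSection_conv [T2Space G] [T2Space S] (h𝒢 : 𝒢.Etale) {f g : S → ℂ}
    (hf : tw.IsSection f) (hg : tw.IsSection g) : tw.IsSection (conv tw f g) := by
  have : T2Space X := TopGpd.t2_units 𝒢
  refine ⟨continuous_conv h𝒢 hf hg, ?_, ?_⟩
  · set D : Set (S × S) := (tsupport f ×ˢ tsupport g) ∩ {q | tw.gpd.s q.1 = tw.gpd.r q.2} with hD
    have hDc : IsCompact D := by
      refine (hf.hasCompactSupport.isCompact.prod hg.hasCompactSupport.isCompact).inter_right ?_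
      exact isClosed_eq (tw.gpd.continuous_s.comp continuous_fst)
        (tw.gpd.continuous_r.comp continuous_snd)
    have hKc : IsCompact ((fun q : S × S => tw.gpd.mul q.1 q.2) '' D) :=
      hDc.image_of_continuousOn (tw.gpd.continuous_mul.mono fun q hq => hq.2)
    refine HasCompactSupport.intro hKc ?_
    intro σ hσ
    by_contra h
    obtain ⟨γ, h1, h2, h3⟩ := exists_of_conv_ne h
    apply hσ
    have e : tw.gpd.s σ = tw.gpd.s (tw.lift γ) := by rw [tw.s_lift, h1]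
    refine ⟨(tw.gpd.mul σ (tw.gpd.inv (tw.lift γ)), tw.lift γ), ⟨⟨subset_tsupport f h2,
      subset_tsupport g h3⟩, ?_⟩, TopGpd.inv_mul_cancel_right e⟩
    show tw.gpd.s (tw.gpd.mul σ (tw.gpd.inv (tw.lift γ))) = tw.gpd.r (tw.lift γ)
    rw [tw.gpd.s_mul _ _ (by rw [tw.gpd.r_inv, e]), tw.gpd.s_inv]
  · intro z σ
    unfold conv
    rw [← tsum_mul_left]
    refine tsum_congr fun γ => ?_
    rw [tw.s_act]
    split_ifs with h
    · rw [tw.mul_act_left z (by rw [tw.gpd.r_inv, tw.s_lift, h]), hf.equivariant]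
      ring
    · rw [mul_zero]

end conv

end Pool.Agent.Q193.BH
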