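import Pool.Agent.Q193.BH.Rep

/-!
# Extension of the regular representation to a C*-completion
-/

set_option autoImplicit false

open Topology Filter Set Pool.Agent.W657.TG ContinuousLinearMap

namespace Pool.Agent.Q193.BH

universe u v

variable {X G S : Type u} [TopologicalSpace X] [TopologicalSpace G] [TopologicalSpace S]
  {𝒢 : TopGpd X G} {tw : Twist 𝒢 S}

/-- the data which are used in the argument: a `*`-homomorphism of `A` into the bounded operators
of `ℓ²(G)` all of whose values are limits of column-sparse operators -/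
structure SparseRep (G : Type u) {A : Type v} [NormedRing A] [StarRing A] [NormedAlgebra ℂ A]
    (π : A →ₗ[ℂ] (l2 G →L[ℂ] l2 G)) : Prop where
  map_mul : ∀ x y, π (x * y) = π x * π y
  map_star : ∀ x, π (star x) = star (π x)
  norm_le : ∀ x, ‖π x‖ ≤ ‖x‖
  approx : ∀ x, ∀ ε : ℝ, 0 < ε → ∃ m T, Sparse m T ∧ ‖π x - T‖ ≤ ε
  ne_zero : ∃ x, π x ≠ 0

theorem exists_sparseRep [T2Space G] [T2Space S] (h𝒢 : 𝒢.Etale) {A : Type v} [NormedRing A]
    [StarRing A] [NormedAlgebra ℂ A] [ContinuousStar A] [Nontrivial A] (ι : Cc tw →ₗ[ℂ] A)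
    (h1 : IsStarHom tw ι) (h2 : DenseRange ι)
    (h3 : ∀ (f : Cc tw) (T : l2 G →L[ℂ] l2 G), tw.IsRegular f T → ‖T‖ ≤ ‖ι f‖) :
    ∃ π : A →ₗ[ℂ] (l2 G →L[ℂ] l2 G), SparseRep G π := by
  have hb : ∀ f, ‖lam h𝒢 f‖ ≤ 1 * ‖ι f‖ := fun f => by
    rw [one_mul]
    exact h3 f _ (lam_spec h𝒢 f)
  set π : A →L[ℂ] (l2 G →L[ℂ] l2 G) := (lam h𝒢).extendOfNorm ι with hπ
  have hπι : ∀ f, π (ι f) = lam h𝒢 f := fun f => LinearMap.extendOfNorm_eq h2 ⟨1, hb⟩ f
  have hπn : ∀ x, ‖π x‖ ≤ ‖x‖ := fun x => by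
    have := LinearMap.norm_extendOfNorm_apply_le h2 1 hb x
    rwa [one_mul] at this
  refine ⟨π.toLinearMap, ?_, ?_, hπn, ?_, ?_⟩
  · intro x y
    show π (x * y) = π x * π y
    refine h2.induction_on₂ (p := fun x y => π (x * y) = π x * π y) ?_ ?_ x y
    · exact isClosed_eq (π.continuous.comp continuous_mul)
        ((π.continuous.comp continuous_fst).mul (π.continuous.comp continuous_snd))
    · intro f g
      have e1 := h1.map_mul f g ⟨conv tw f g, isSection_conv h𝒢 f.2 g.2⟩ rfl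
      have e2 := (lam_isStarHom h𝒢).map_mul f g ⟨conv tw f g, isSection_conv h𝒢 f.2 g.2⟩ rfl
      show π (ι f * ι g) = π (ι f) * π (ι g)
      rw [← e1, hπι, hπι, hπι, e2]
  · intro x
    show π (star x) = star (π x)
    refine h2.induction_on (p := fun x => π (star x) = star (π x)) x ?_ ?_
    · exact isClosed_eq (π.continuous.comp continuous_star) (continuous_star.comp π.continuous)
    · intro f
      have e1 := h1.map_star f ⟨invol tw f, isSection_invol tw f.2⟩ rfl
      have e2 := (lam_isStarHom h𝒢).map_star f ⟨invol tw f, isSection_invol tw f.2⟩ rfl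
      show π (star (ι f)) = star (π (ι f))
      rw [← e1, hπι, hπι, e2]
  · intro x ε hε
    obtain ⟨f, hf⟩ := Metric.denseRange_iff.1 h2 x ε hε
    obtain ⟨m, hm⟩ := lam_sparse h𝒢 f
    refine ⟨m, _, hm, ?_⟩
    show ‖π x - lam h𝒢 f‖ ≤ ε
    rw [← hπι, ← map_sub]
    refine (hπn _).trans ?_
    rw [← dist_eq_norm]
    exact hf.le
  · have h4 : ∃ f : Cc tw, f ≠ 0 := by
      by_contra hno
      push Not at hno
      have h5 : ∀ x : A, x = 0 := by
        intro x
        refine h2.induction_on (p := fun x => x = 0) x (isClosed_singleton (x := (0 : A))) ?_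
        intro f
        rw [hno f, map_zero]
      exact (one_ne_zero : (1 : A) ≠ 0) (h5 1)
    obtain ⟨f, hf⟩ := h4
    refine ⟨ι f, ?_⟩
    show π (ι f) ≠ 0
    rw [hπι]
    exact lam_ne_zero h𝒢 hf

end Pool.Agent.Q193.BH
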