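import Mathlib

/-!
# Signs: a fourth moment estimate
-/

set_option autoImplicit false

open scoped ENNReal

namespace Pool.Agent.Q193.BH

universe u

variable {G : Type u}

/-- `∑ a(j)`, with values in `[0, ∞]` -/
noncomputable def Q (a : G → ℝ) : ℝ≥0∞ := ∑' j, ENNReal.ofReal (a j)

theorem Q_add {a b : G → ℝ} (ha : ∀ j, 0 ≤ a j) (hb : ∀ j, 0 ≤ b j) :
    Q (fun j => a j + b j) = Q a + Q b := by
  unfold Q
  rw [← ENNReal.tsum_add]
  refine tsum_congr fun j => ?_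
  rw [ENNReal.ofReal_add (ha j) (hb j)]

theorem Q_mono {a b : G → ℝ} (h : ∀ j, a j ≤ b j) : Q a ≤ Q b :=
  ENNReal.tsum_le_tsum fun j => ENNReal.ofReal_le_ofReal (h j)

theorem norm_sq_eq (w : ℂ) : ‖w‖ ^ 2 = w.re ^ 2 + w.im ^ 2 := by
  rw [← Complex.normSq_eq_norm_sq, Complex.normSq_apply]; ring

theorem fourth (w v : ℂ) :
    ‖w + v‖ ^ 4 + ‖w - v‖ ^ 4 ≤ 2 * ‖w‖ ^ 4 + 12 * (‖w‖ ^ 2 * ‖v‖ ^ 2) + 2 * ‖v‖ ^ 4 := by
  have h : ∀ x : ℂ, ‖x‖ ^ 4 = (x.re ^ 2 + x.im ^ 2) ^ 2 := fun x => by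
    rw [← norm_sq_eq]; ring
  rw [h, h, h, h, norm_sq_eq, norm_sq_eq]
  simp only [Complex.add_re, Complex.add_im, Complex.sub_re, Complex.sub_im]
  nlinarith [sq_nonneg (w.re * v.im - w.im * v.re)]

theorem para (w v : ℂ) : ‖w + v‖ ^ 2 + ‖w - v‖ ^ 2 = 2 * ‖w‖ ^ 2 + 2 * ‖v‖ ^ 2 := by
  rw [norm_sq_eq, norm_sq_eq, norm_sq_eq, norm_sq_eq]
  simp only [Complex.add_re, Complex.add_im, Complex.sub_re, Complex.sub_im]
  ring

theorem ext_signs (n : ℕ) (s : ℕ → ℝ) (hs : ∀ a, s a = 1 ∨ s a = -1) (t : ℝ)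
    (ht : t = 1 ∨ t = -1) : ∃ s' : ℕ → ℝ, s' n = t ∧ (∀ a, a < n → s' a = s a) ∧
      ∀ a, s' a = 1 ∨ s' a = -1 := by
  refine ⟨Function.update s n t, Function.update_self _ _ _, fun a ha =>
    Function.update_of_ne ha.ne _ _, fun a => ?_⟩
  by_cases h : a = n
  · subst h
    rw [Function.update_self]
    exact ht
  · rw [Function.update_of_ne h]
    exact hs a

/-- The sign lemma: for vectors `V 0, ..., V (n-1)` there are signs with
`∑ⱼ |W(j) + ∑ₐ sₐ Vₐ(j)|⁴ ≤ ∑ⱼ (|W(j)|⁴ + 6 |W(j)|² R(j) + 3 R(j)²)`, `R = ∑ₐ |Vₐ|²`. -/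
theorem sign_lemma (V : ℕ → G → ℂ) (n : ℕ) : ∀ W : G → ℂ, ∃ s : ℕ → ℝ, (∀ a, s a = 1 ∨ s a = -1) ∧
    Q (fun j => ‖W j + ∑ a ∈ Finset.range n, (s a : ℂ) * V a j‖ ^ 4) ≤
      Q (fun j => ‖W j‖ ^ 4 + 6 * (‖W j‖ ^ 2 * ∑ a ∈ Finset.range n, ‖V a j‖ ^ 2)
        + 3 * (∑ a ∈ Finset.range n, ‖V a j‖ ^ 2) ^ 2) := by
  induction n with
  | zero =>
    intro W
    refine ⟨fun _ => 1, fun _ => Or.inl rfl, le_of_eq ?_⟩
    congr 1
    funext j
    simp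
  | succ n ih =>
    intro W
    set R : G → ℝ := fun j => ∑ a ∈ Finset.range n, ‖V a j‖ ^ 2 with hR
    have hR0 : ∀ j, 0 ≤ R j := fun j => Finset.sum_nonneg fun a _ => by positivity
    set W1 : G → ℂ := fun j => W j + V n j with hW1
    set W2 : G → ℂ := fun j => W j - V n j with hW2
    obtain ⟨s1, hs1, h1⟩ := ih W1
    obtain ⟨s2, hs2, h2⟩ := ih W2
    set B : G → ℝ := fun j => ‖W j‖ ^ 4 + 6 * (‖W j‖ ^ 2 * (R j + ‖V n j‖ ^ 2))
        + 3 * (R j + ‖V n j‖ ^ 2) ^ 2 with hB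
    have hB0 : ∀ j, 0 ≤ B j := fun j => by
      have := hR0 j
      simp only [hB]; positivity
    have h3 : Q (fun j => ‖W1 j‖ ^ 4 + 6 * (‖W1 j‖ ^ 2 * R j) + 3 * (R j) ^ 2)
        + Q (fun j => ‖W2 j‖ ^ 4 + 6 * (‖W2 j‖ ^ 2 * R j) + 3 * (R j) ^ 2) ≤ Q B + Q B := by
      rw [← Q_add, ← Q_add hB0 hB0]
      · apply Q_mono
        intro j
        have e1 := fourth (W j) (V n j)
        have e2 := para (W j) (V n j)
        have e3 := hR0 j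
        simp only [hW1, hW2, hB]
        have e4 : 6 * (‖W j + V n j‖ ^ 2 * R j) + 6 * (‖W j - V n j‖ ^ 2 * R j)
            = 12 * (‖W j‖ ^ 2 * R j) + 12 * (‖V n j‖ ^ 2 * R j) := by
          linear_combination (6 * R j) * e2
        have e5 : (0 : ℝ) ≤ ‖V n j‖ ^ 4 := by positivity
        nlinarith [e1, e4, e5]
      · intro j
        have := hR0 j
        positivity
      · intro j
        have := hR0 j
        positivity
    have h4 : Q (fun j => ‖W1 j‖ ^ 4 + 6 * (‖W1 j‖ ^ 2 * R j) + 3 * (R j) ^ 2) ≤ Q B ∨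
        Q (fun j => ‖W2 j‖ ^ 4 + 6 * (‖W2 j‖ ^ 2 * R j) + 3 * (R j) ^ 2) ≤ Q B := by
      by_contra hno
      push Not at hno
      exact absurd h3 (not_le.2 (ENNReal.add_lt_add hno.1 hno.2))
    have hBB : (fun j => ‖W j‖ ^ 4 + 6 * (‖W j‖ ^ 2 * ∑ a ∈ Finset.range (n + 1), ‖V a j‖ ^ 2)
        + 3 * (∑ a ∈ Finset.range (n + 1), ‖V a j‖ ^ 2) ^ 2) = B := by
      funext j
      rw [Finset.sum_range_succ]
    rw [hBB]
    rcases h4 with h4 | h4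
    · obtain ⟨s', e1, e2, e3⟩ := ext_signs n s1 hs1 1 (Or.inl rfl)
      refine ⟨s', e3, le_trans (le_of_eq ?_) (h1.trans h4)⟩
      congr 1
      funext j
      rw [Finset.sum_range_succ, e1]
      have : ∑ a ∈ Finset.range n, (s' a : ℂ) * V a j
          = ∑ a ∈ Finset.range n, (s1 a : ℂ) * V a j := by
        refine Finset.sum_congr rfl fun a ha => ?_
        rw [e2 a (Finset.mem_range.1 ha)]
      rw [this]
      simp only [hW1]
      congr 2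
      push_cast
      ring
    · obtain ⟨s', e1, e2, e3⟩ := ext_signs n s2 hs2 (-1) (Or.inr rfl)
      refine ⟨s', e3, le_trans (le_of_eq ?_) (h2.trans h4)⟩
      congr 1
      funext j
      rw [Finset.sum_range_succ, e1]
      have : ∑ a ∈ Finset.range n, (s' a : ℂ) * V a j
          = ∑ a ∈ Finset.range n, (s2 a : ℂ) * V a j := by
        refine Finset.sum_congr rfl fun a ha => ?_
        rw [e2 a (Finset.mem_range.1 ha)]
      rw [this]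
      simp only [hW2]
      congr 2
      push_cast
      ring

/-- the final form: `R ≤ C` and `∑ⱼ |Vₐ(j)|² ≤ C` for all `a` -/
theorem exists_signs (V : ℕ → G → ℂ) (n : ℕ) (C : ℝ) (hC : 0 ≤ C)
    (h1 : ∀ j, ∑ a ∈ Finset.range n, ‖V a j‖ ^ 2 ≤ C)
    (h2 : ∀ a, ∀ F : Finset G, ∑ j ∈ F, ‖V a j‖ ^ 2 ≤ C) :
    ∃ s : ℕ → ℝ, (∀ a, s a = 1 ∨ s a = -1) ∧ ∀ F : Finset G,
      ∑ j ∈ F, ‖∑ a ∈ Finset.range n, (s a : ℂ) * V a j‖ ^ 4 ≤ 3 * n * C ^ 2 := by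
  obtain ⟨s, hs, h3⟩ := sign_lemma V n (fun _ => 0)
  refine ⟨s, hs, fun F => ?_⟩
  have h4 : Q (fun j => ‖(0 : ℂ)‖ ^ 4 + 6 * (‖(0 : ℂ)‖ ^ 2 * ∑ a ∈ Finset.range n, ‖V a j‖ ^ 2)
        + 3 * (∑ a ∈ Finset.range n, ‖V a j‖ ^ 2) ^ 2) ≤ ENNReal.ofReal (3 * n * C ^ 2) := by
    unfold Q
    rw [ENNReal.tsum_eq_iSup_sum]
    refine iSup_le fun E => ?_
    rw [← ENNReal.ofReal_sum_of_nonneg]
    · apply ENNReal.ofReal_le_ofReal
      calc ∑ j ∈ E, (‖(0 : ℂ)‖ ^ 4 + 6 * (‖(0 : ℂ)‖ ^ 2 * ∑ a ∈ Finset.range n, ‖V a j‖ ^ 2)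
            + 3 * (∑ a ∈ Finset.range n, ‖V a j‖ ^ 2) ^ 2)
          ≤ ∑ j ∈ E, 3 * C * ∑ a ∈ Finset.range n, ‖V a j‖ ^ 2 := by
            refine Finset.sum_le_sum fun j _ => ?_
            have h5 := h1 j
            have h6 : 0 ≤ ∑ a ∈ Finset.range n, ‖V a j‖ ^ 2 :=
              Finset.sum_nonneg fun a _ => by positivity
            simp only [norm_zero]
            nlinarith
        _ = 3 * C * ∑ a ∈ Finset.range n, ∑ j ∈ E, ‖V a j‖ ^ 2 := by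
            rw [← Finset.mul_sum, Finset.sum_comm]
        _ ≤ 3 * C * ∑ _a ∈ Finset.range n, C := by
            have : ∑ a ∈ Finset.range n, ∑ j ∈ E, ‖V a j‖ ^ 2 ≤ ∑ _a ∈ Finset.range n, C :=
              Finset.sum_le_sum fun a _ => h2 a E
            gcongr
        _ = 3 * n * C ^ 2 := by
            rw [Finset.sum_const, Finset.card_range, nsmul_eq_mul]; ring
    · intro j _
      have h6 : 0 ≤ ∑ a ∈ Finset.range n, ‖V a j‖ ^ 2 :=
        Finset.sum_nonneg fun a _ => by positivity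
      positivity
  have h5 : ENNReal.ofReal (∑ j ∈ F, ‖∑ a ∈ Finset.range n, (s a : ℂ) * V a j‖ ^ 4)
      ≤ ENNReal.ofReal (3 * n * C ^ 2) := by
    rw [ENNReal.ofReal_sum_of_nonneg (fun j _ => by positivity)]
    refine le_trans ?_ (h3.trans h4)
    unfold Q
    simp only [zero_add]
    exact ENNReal.sum_le_tsum F
  exact (ENNReal.ofReal_le_ofReal_iff (by positivity)).1 h5

end Pool.Agent.Q193.BH
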