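import Pool.Agent.Q193.BH.Ext
import Pool.Agent.Q193.BH.Sign

/-!
# Isometries with orthogonal ranges and block diagonal operators
-/

set_option autoImplicit false

open Topology Filter Set ContinuousLinearMap

namespace Pool.Agent.Q193.BH

universe u v

variable {H : Type v} [NormedAddCommGroup H] [InnerProductSpace ℂ H] [CompleteSpace H]

theorem exists_isometries (hH : ¬ FiniteDimensional ℂ H) :
    ∃ w : ℕ → (H →ₗᵢ[ℂ] H), ∀ k l, k ≠ l → ∀ x y, inner ℂ (w k x) (w l y) = 0 := by
  obtain ⟨J, b, hb⟩ := exists_hilbertBasis ℂ H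
  have hJ : Infinite J := by
    by_contra hfin
    rw [not_infinite_iff_finite] at hfin
    have := Fintype.ofFinite J
    exact hH (Module.Basis.finiteDimensional_of_finite b.toOrthonormalBasis.toBasis)
  have hcard : Cardinal.mk (ℕ × J) = Cardinal.mk J := by
    rw [Cardinal.mk_prod]
    simp
  obtain ⟨e⟩ := Cardinal.eq.1 hcard
  have ho : ∀ k : ℕ, Orthonormal ℂ (fun j : J => b (e (k, j))) := by
    intro k
    exact b.orthonormal.comp (fun j => e (k, j)) (fun i j hij => by
      have := e.injective hij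
      simpa using this)
  set w : ℕ → (H →ₗᵢ[ℂ] H) := fun k =>
    ((ho k).orthogonalFamily.linearIsometry).comp b.repr.toLinearIsometry with hw
  have hsum : ∀ k x, HasSum (fun j => (b.repr x j) • b (e (k, j))) (w k x) := by
    intro k x
    have h1 := (ho k).orthogonalFamily.hasSum_linearIsometry (b.repr x)
    have h2 : w k x = (ho k).orthogonalFamily.linearIsometry (b.repr x) := rfl
    rw [h2]
    convert h1 using 2 with j
    rw [LinearIsometry.toSpanSingleton_apply]
  refine ⟨w, fun k l hkl x y => ?_⟩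
  have h1 : ∀ j, inner ℂ (b (e (k, j))) (w l y) = 0 := by
    intro j
    have h2 := (hsum l y).mapL (innerSL ℂ (b (e (k, j))))
    have h3 : (fun i => (innerSL ℂ (b (e (k, j)))) ((b.repr y i) • b (e (l, i)))) = fun _ => 0 := by
      funext i
      rw [map_smul, innerSL_apply_apply, b.orthonormal.2, smul_zero]
      intro h
      have := e.injective h
      simp only [Prod.mk.injEq] at this
      exact hkl this.1
    rw [h3] at h2
    exact h2.unique hasSum_zero
  have h4 := (hsum k x).mapL (innerSL ℂ (w l y))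
  have h5 : (fun i => (innerSL ℂ (w l y)) ((b.repr x i) • b (e (k, i)))) = fun _ => 0 := by
    funext i
    rw [map_smul, innerSL_apply_apply, inner_eq_zero_symm.1 (h1 i), smul_zero]
  rw [h5] at h4
  exact inner_eq_zero_symm.1 (h4.unique hasSum_zero)

/-- the block diagonal operator `∑ w_k t_k w_k*` -/
theorem exists_block (w : ℕ → (H →ₗᵢ[ℂ] H))
    (hw : ∀ k l, k ≠ l → ∀ x y, inner ℂ (w k x) (w l y) = 0) (t : ℕ → (H →ₗᵢ[ℂ] H)) :
    ∃ T : H →L[ℂ] H, ‖T‖ ≤ 1 ∧ ∀ k x, T (w k x) = w k (t k x) := by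
  classical
  have h1 : OrthogonalFamily ℂ (fun _ : ℕ => H) w := by
    intro k l hkl x y
    exact hw k l hkl x y
  have h2 : OrthogonalFamily ℂ (fun _ : ℕ => H) (fun k => (w k).comp (t k)) := by
    intro k l hkl x y
    exact hw k l hkl (t k x) (t l y)
  set L := h1.linearIsometry.toContinuousLinearMap with hL
  set O := h2.linearIsometry.toContinuousLinearMap with hO
  have hLn : ∀ x, ‖L x‖ = ‖x‖ := fun x => h1.linearIsometry.norm_map x
  have hOn : ∀ x, ‖O x‖ = ‖x‖ := fun x => h2.linearIsometry.norm_map x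
  have hLL : adjoint L ∘L L = 1 := (norm_map_iff_adjoint_comp_self L).1 hLn
  have hL1 : ‖L‖ ≤ 1 := opNorm_le_bound _ zero_le_one fun x => by rw [hLn, one_mul]
  have hO1 : ‖O‖ ≤ 1 := opNorm_le_bound _ zero_le_one fun x => by rw [hOn, one_mul]
  refine ⟨O ∘L adjoint L, ?_, ?_⟩
  · refine (opNorm_comp_le _ _).trans ?_
    rw [LinearIsometryEquiv.norm_map]
    exact mul_le_one₀ hO1 (norm_nonneg _) hL1
  · intro k x
    have e1 : L (lp.single 2 k x) = w k x := h1.linearIsometry_apply_single x
    have e2 : O (lp.single 2 k x) = w k (t k x) := h2.linearIsometry_apply_single x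
    have e3 : adjoint L (L (lp.single 2 k x)) = lp.single 2 k x := by
      have := congrArg (fun A => A (lp.single 2 k x)) hLL
      simpa using this
    show O (adjoint L (w k x)) = w k (t k x)
    rw [← e1, e3, e2]

theorem star_mul_of_isometry (w : H →ₗᵢ[ℂ] H) :
    star w.toContinuousLinearMap * w.toContinuousLinearMap = 1 :=
  (norm_map_iff_adjoint_comp_self _).1 fun x => w.norm_map x

theorem star_mul_of_orth {w w' : H →ₗᵢ[ℂ] H} (h : ∀ x y, inner ℂ (w x) (w' y) = 0) :
    star w.toContinuousLinearMap * w'.toContinuousLinearMap = 0 := by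
  ext y
  show adjoint w.toContinuousLinearMap (w' y) = (0 : H)
  rw [← inner_self_eq_zero (𝕜 := ℂ), adjoint_inner_left]
  exact inner_eq_zero_symm.1 (h _ _)

theorem cuntz_sum {A : Type*} [Ring A] [StarRing A] [Algebra ℂ A] [StarModule ℂ A]
    (W : ℕ → A) (h1 : ∀ a, star (W a) * W a = 1)
    (h2 : ∀ a b, a ≠ b → star (W a) * W b = 0) (c : ℕ → ℂ) (n : ℕ) :
    star (∑ a ∈ Finset.range n, c a • W a) * (∑ a ∈ Finset.range n, c a • W a)
      = ((∑ a ∈ Finset.range n, ‖c a‖ ^ 2 : ℝ) : ℂ) • (1 : A) := by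
  rw [star_sum, Finset.sum_mul_sum]
  have h3 : ∀ a ∈ Finset.range n, ∑ b ∈ Finset.range n, star (c a • W a) * (c b • W b)
      = ((‖c a‖ ^ 2 : ℝ) : ℂ) • (1 : A) := by
    intro a ha
    rw [Finset.sum_eq_single a]
    · rw [star_smul, smul_mul_smul_comm, h1]
      congr 1
      rw [RCLike.star_def, Complex.conj_mul']
      push_cast
      rfl
    · intro b _ hb
      rw [star_smul, smul_mul_smul_comm, h2 a b hb.symm, smul_zero]
    · intro h
      exact absurd ha h
  rw [Finset.sum_congr rfl h3, ← Finset.sum_smul]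
  push_cast
  rfl

end Pool.Agent.Q193.BH
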