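import Pool.Agent.Q193.BH.Iso

/-!
# `B(H)` has no sparse representation
-/

set_option autoImplicit false

open Topology Filter Set ContinuousLinearMap Pool.Agent.W657.TG

namespace Pool.Agent.Q193.BH

universe u v

section general

variable {G : Type u} {A : Type v} [NormedRing A] [StarRing A] [NormedAlgebra ℂ A]
  {π : A →ₗ[ℂ] (l2 G →L[ℂ] l2 G)}

theorem SparseRep.one_ne (h : SparseRep G π) : ∃ i : G, π 1 (dl i) ≠ 0 := by
  obtain ⟨x, hx⟩ := h.ne_zero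
  by_contra hno
  push Not at hno
  have h1 : π 1 = 0 := op_ext fun i => by rw [hno i]; rfl
  apply hx
  rw [← mul_one x, h.map_mul, h1, mul_zero]

theorem SparseRep.normsq (h : SparseRep G π) {u : A} {c : ℝ} (hu : star u * u = (c : ℂ) • (1 : A))
    (ξ : l2 G) : ‖π u ξ‖ ^ 2 = c * ‖π 1 ξ‖ ^ 2 := by
  have key : ∀ x : A, ((‖π x ξ‖ ^ 2 : ℝ) : ℂ) = inner ℂ ξ (π (star x * x) ξ) := by
    intro x
    rw [h.map_mul, h.map_star, ContinuousLinearMap.star_eq_adjoint]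
    show _ = inner ℂ ξ (adjoint (π x) (π x ξ))
    rw [adjoint_inner_right, inner_self_eq_norm_sq_to_K]
    push_cast
    rfl
  have h1 := key u
  have h2 := key 1
  rw [star_one, one_mul] at h2
  rw [hu, map_smul] at h1
  have h3 : inner ℂ ξ (((c : ℂ) • π 1) ξ) = (c : ℂ) * inner ℂ ξ (π 1 ξ) := by
    show inner ℂ ξ ((c : ℂ) • (π 1 ξ)) = _
    rw [inner_smul_right]
  rw [h3, ← h2] at h1
  exact_mod_cast h1

end general

theorem few_inner {G : Type u} {F : Finset G} {y v : l2 G} (hy : ∀ γ ∉ F, y γ = 0) :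
    ‖inner ℂ y v‖ ^ 2 ≤ ‖y‖ ^ 2 * ∑ j ∈ F, ‖v j‖ ^ 2 := by
  classical
  have h1 : y = ∑ j ∈ F, y j • (dl j : l2 G) := by
    have h2 := hasSum_dl y
    have h3 : HasSum (fun j => y j • (dl j : l2 G)) (∑ j ∈ F, y j • (dl j : l2 G)) :=
      hasSum_sum_of_ne_finset_zero fun j hj => by rw [hy j hj, zero_smul]
    exact h2.unique h3
  have h4 : inner ℂ y v = ∑ j ∈ F, (starRingEnd ℂ) (y j) * v j := by
    conv_lhs => rw [h1]
    rw [sum_inner]
    refine Finset.sum_congr rfl fun j _ => ?_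
    rw [inner_smul_left, inner_dl]
  have h5 : ‖inner ℂ y v‖ ≤ ∑ j ∈ F, ‖y j‖ * ‖v j‖ := by
    rw [h4]
    refine (norm_sum_le _ _).trans (Finset.sum_le_sum fun j _ => ?_)
    rw [norm_mul, RCLike.norm_conj]
  calc ‖inner ℂ y v‖ ^ 2 ≤ (∑ j ∈ F, ‖y j‖ * ‖v j‖) ^ 2 := pow_le_pow_left₀ (norm_nonneg _) h5 2
    _ ≤ (∑ j ∈ F, ‖y j‖ ^ 2) * ∑ j ∈ F, ‖v j‖ ^ 2 := Finset.sum_mul_sq_le_sq_mul_sq _ _ _
    _ ≤ ‖y‖ ^ 2 * ∑ j ∈ F, ‖v j‖ ^ 2 := by
        have := sumsq y F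
        have h6 : (0 : ℝ) ≤ ∑ j ∈ F, ‖v j‖ ^ 2 := Finset.sum_nonneg fun j _ => by positivity
        gcongr

/-- a vector whose fourth powers have a small sum is far from all vectors with few entries -/
theorem far {G : Type u} {F : Finset G} {y v : l2 G} (hy : ∀ γ ∉ F, y γ = 0) {δ : ℝ} (hδ : 0 < δ)
    (hv : ‖v‖ = δ) (hvy : ‖v - y‖ ≤ δ / 2) {n L : ℕ} (hF : F.card ≤ L) (hn : 0 < n)
    (h4 : ∑ j ∈ F, ‖v j‖ ^ 4 ≤ 3 * δ ^ 4 / n) : n ≤ 243 * L := by
  have hyn : ‖y‖ ≤ 3 / 2 * δ := by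
    have h1 : ‖y‖ ≤ ‖v‖ + ‖v - y‖ := by
      have := norm_sub_le v (v - y)
      rwa [sub_sub_cancel] at this
    linarith
  set s : ℝ := ∑ j ∈ F, ‖v j‖ ^ 2 with hs
  have hs0 : 0 ≤ s := Finset.sum_nonneg fun j _ => by positivity
  have h1 := few_inner (v := v) hy
  have h2 : δ ^ 2 ≤ δ / 2 * δ + ‖inner ℂ y v‖ := by
    have e1 : ((‖v‖ ^ 2 : ℝ) : ℂ) = inner ℂ (v - y) v + inner ℂ y v := by
      rw [← inner_add_left, sub_add_cancel, inner_self_eq_norm_sq_to_K]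
      push_cast
      rfl
    have e2 : ‖((‖v‖ ^ 2 : ℝ) : ℂ)‖ = ‖v‖ ^ 2 := by
      rw [Complex.norm_real, Real.norm_of_nonneg (by positivity)]
    have e3 : ‖v‖ ^ 2 ≤ ‖v - y‖ * ‖v‖ + ‖inner ℂ y v‖ := by
      rw [← e2, e1]
      exact (norm_add_le _ _).trans (by gcongr; exact norm_inner_le_norm _ _)
    rw [hv] at e3
    have e4 : ‖v - y‖ * δ ≤ δ / 2 * δ := by gcongr
    linarith
  have h3 : (δ ^ 2 / 2) ^ 2 ≤ (3 / 2 * δ) ^ 2 * s := by
    have e1 : δ ^ 2 / 2 ≤ ‖inner ℂ y v‖ := by nlinarith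
    calc (δ ^ 2 / 2) ^ 2 ≤ ‖inner ℂ y v‖ ^ 2 := pow_le_pow_left₀ (by positivity) e1 2
      _ ≤ ‖y‖ ^ 2 * s := h1
      _ ≤ (3 / 2 * δ) ^ 2 * s := by gcongr
  have h5 : δ ^ 2 / 9 ≤ s := by
    have e1 : δ ^ 2 * (δ ^ 2 / 9) ≤ δ ^ 2 * s := by nlinarith
    exact le_of_mul_le_mul_left e1 (by positivity)
  have h6 : s ^ 2 ≤ L * ∑ j ∈ F, ‖v j‖ ^ 4 := by
    have e1 : s ^ 2 ≤ F.card * ∑ j ∈ F, (‖v j‖ ^ 2) ^ 2 := sq_sum_le_card_mul_sum_sq
    have e2 : ∑ j ∈ F, (‖v j‖ ^ 2) ^ 2 = ∑ j ∈ F, ‖v j‖ ^ 4 :=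
      Finset.sum_congr rfl fun j _ => by ring
    rw [e2] at e1
    have e3 : (F.card : ℝ) ≤ L := by exact_mod_cast hF
    have e4 : (0 : ℝ) ≤ ∑ j ∈ F, ‖v j‖ ^ 4 := Finset.sum_nonneg fun j _ => by positivity
    exact e1.trans (by gcongr)
  have hn' : (0 : ℝ) < n := by exact_mod_cast hn
  have h7 : δ ^ 4 / 81 ≤ L * (3 * δ ^ 4 / n) := by
    have e1 : (δ ^ 2 / 9) ^ 2 ≤ s ^ 2 := pow_le_pow_left₀ (by positivity) h5 2
    have e2 : (L : ℝ) * ∑ j ∈ F, ‖v j‖ ^ 4 ≤ L * (3 * δ ^ 4 / n) := by gcongr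
    have e3 : (δ ^ 2 / 9) ^ 2 = δ ^ 4 / 81 := by ring
    linarith
  have h8 : (n : ℝ) ≤ 243 * L := by
    have e1 : (L : ℝ) * (3 * δ ^ 4 / n) = δ ^ 4 * (3 * L) / n := by ring
    rw [e1, le_div_iff₀ hn'] at h7
    have e2 : δ ^ 4 * (n / 81) ≤ δ ^ 4 * (3 * L) := by
      have : δ ^ 4 / 81 * n = δ ^ 4 * (n / 81) := by ring
      linarith
    have e3 := le_of_mul_le_mul_left e2 (by positivity : (0 : ℝ) < δ ^ 4)
    linarith
  exact_mod_cast h8

theorem three_mul_sub {B : Type*} [NormedRing B] {a b c a' b' c' : B} {ε : ℝ} (hε : 0 ≤ ε)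
    (hε1 : ε ≤ 1 / 8) (ha : ‖a‖ ≤ 1) (hb : ‖b‖ ≤ 1) (hc : ‖c‖ ≤ 1) (ha' : ‖a - a'‖ ≤ ε)
    (hb' : ‖b - b'‖ ≤ ε) (hc' : ‖c - c'‖ ≤ ε) : ‖a * b * c - a' * b' * c'‖ ≤ 4 * ε := by
  have e : a * b * c - a' * b' * c' = (a - a') * b * c + a' * (b - b') * c
      + a' * b' * (c - c') := by noncomm_ring
  have hna : ‖a'‖ ≤ 1 + ε := by
    have := norm_sub_le a (a - a')
    rw [sub_sub_cancel] at this
    linarith
  have hnb : ‖b'‖ ≤ 1 + ε := by
    have := norm_sub_le b (b - b')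
    rw [sub_sub_cancel] at this
    linarith
  have h1 : ‖(a - a') * b * c‖ ≤ ε * 1 * 1 := by
    refine (norm_mul_le _ _).trans ?_
    gcongr
    refine (norm_mul_le _ _).trans ?_
    gcongr
  have h2 : ‖a' * (b - b') * c‖ ≤ (1 + ε) * ε * 1 := by
    refine (norm_mul_le _ _).trans ?_
    gcongr
    refine (norm_mul_le _ _).trans ?_
    gcongr
  have h3 : ‖a' * b' * (c - c')‖ ≤ (1 + ε) * (1 + ε) * ε := by
    refine (norm_mul_le _ _).trans ?_
    gcongr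
    refine (norm_mul_le _ _).trans ?_
    gcongr
  rw [e]
  have h4 := norm_add_le ((a - a') * b * c + a' * (b - b') * c) (a' * b' * (c - c'))
  have h5 := norm_add_le ((a - a') * b * c) (a' * (b - b') * c)
  have h6 : 1 + ε ≤ 9 / 8 := by linarith
  have h7 : (1 + ε) * ε ≤ 9 / 8 * ε := by gcongr
  have h8 : (1 + ε) * (1 + ε) * ε ≤ 9 / 8 * (9 / 8) * ε := by gcongr
  linarith

variable {G : Type u} {H : Type v} [NormedAddCommGroup H] [InnerProductSpace ℂ H] [CompleteSpace H]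

theorem no_sparseRep (hH : ¬ FiniteDimensional ℂ H)
    (π : (H →L[ℂ] H) →ₗ[ℂ] (l2 G →L[ℂ] l2 G)) (h : SparseRep G π) : False := by
  classical
  obtain ⟨w, hw⟩ := exists_isometries hH
  set W : ℕ → (H →L[ℂ] H) := fun a => (w a).toContinuousLinearMap with hWdef
  have hW1 : ∀ a, star (W a) * W a = 1 := fun a => star_mul_of_isometry (w a)
  have hW2 : ∀ a b, a ≠ b → star (W a) * W b = 0 := fun a b hab =>
    star_mul_of_orth (hw a b hab)
  have hnt : Nontrivial H := by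
    by_contra hno
    rw [not_nontrivial_iff_subsingleton] at hno
    exact hH inferInstance
  have hWn : ∀ a, ‖W a‖ ≤ 1 := fun a => (w a).norm_toContinuousLinearMap_le
  obtain ⟨i₀, hi₀⟩ := h.one_ne
  set ξ : l2 G := dl i₀ with hξ
  set δ : ℝ := ‖π 1 ξ‖ with hδ
  have hδ0 : 0 < δ := norm_pos_iff.2 hi₀
  have hδ1 : δ ≤ 1 := by
    have e1 : ‖π 1 ξ‖ ≤ ‖π 1‖ * ‖ξ‖ := (π 1).le_opNorm ξ
    have e2 : ‖π 1‖ ≤ 1 := (h.norm_le 1).trans norm_one.le
    rw [norm_dl, mul_one] at e1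
    exact e1.trans e2
  set ε : ℝ := δ / 8 with hε
  have hε0 : 0 < ε := by positivity
  have hε1 : ε ≤ 1 / 8 := by linarith
  -- approximation of the isometries
  choose M R hR hRn using fun k => h.approx (W k) ε hε0
  choose M' R' hR' hRn' using fun k => h.approx (star (W k)) ε hε0
  set n : ℕ → ℕ := fun k => 243 * (M k * k * M' k) + 1 with hn
  have hn0 : ∀ k, 0 < n k := fun k => Nat.succ_pos _
  -- the vectors
  set V : ℕ → G → ℂ := fun a j => (π (W a) ξ) j with hV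
  have hVn : ∀ a, ‖π (W a) ξ‖ ^ 2 = δ ^ 2 := by
    intro a
    have := h.normsq (u := W a) (c := 1) (by rw [hW1]; simp) ξ
    rw [this, one_mul]
  have hV2 : ∀ a, ∀ F : Finset G, ∑ j ∈ F, ‖V a j‖ ^ 2 ≤ δ ^ 2 := by
    intro a F
    rw [← hVn a]
    exact sumsq _ F
  have hV1 : ∀ m j, ∑ a ∈ Finset.range m, ‖V a j‖ ^ 2 ≤ δ ^ 2 := by
    intro m j
    set Rj : ℝ := ∑ a ∈ Finset.range m, ‖V a j‖ ^ 2 with hRj
    have hRj0 : 0 ≤ Rj := Finset.sum_nonneg fun a _ => by positivity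
    set c : ℕ → ℂ := fun a => (starRingEnd ℂ) (V a j) with hc
    have e1 := h.normsq (cuntz_sum W hW1 hW2 c m) ξ
    have e2 : ∑ a ∈ Finset.range m, ‖c a‖ ^ 2 = Rj := by
      refine Finset.sum_congr rfl fun a _ => ?_
      rw [hc, RCLike.norm_conj]
    rw [e2] at e1
    have e3 : (π (∑ a ∈ Finset.range m, c a • W a) ξ) j = (Rj : ℂ) := by
      rw [map_sum, sum_apply, ← inner_dl, inner_sum]
      rw [hRj, Complex.ofReal_sum]
      refine Finset.sum_congr rfl fun a _ => ?_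
      rw [map_smul]
      show inner ℂ (dl j) (c a • (π (W a) ξ)) = _
      rw [inner_smul_right, inner_dl, hc]
      have := Complex.conj_mul' (V a j)
      rw [this]
      push_cast
      rfl
    have e4 := apply_le (π (∑ a ∈ Finset.range m, c a • W a) ξ) j
    rw [e3, Complex.norm_real, Real.norm_of_nonneg hRj0] at e4
    have e5 : Rj ^ 2 ≤ Rj * δ ^ 2 := by
      rw [← e1]
      exact pow_le_pow_left₀ hRj0 e4 2
    by_contra hlt
    push Not at hlt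
    have : 0 < Rj := lt_of_le_of_lt (by positivity) hlt
    nlinarith
  -- the signs
  choose s hs hs4 using fun k => exists_signs V (n k) (δ ^ 2) (by positivity)
    (fun j => hV1 (n k) j) hV2
  set c : ℕ → ℕ → ℂ := fun k a => (((√(n k))⁻¹ * s k a : ℝ) : ℂ) with hc
  set t : ℕ → (H →L[ℂ] H) := fun k => ∑ a ∈ Finset.range (n k), c k a • W a with ht
  have hct : ∀ k, ∑ a ∈ Finset.range (n k), ‖c k a‖ ^ 2 = 1 := by
    intro k
    have e1 : ∀ a ∈ Finset.range (n k), ‖c k a‖ ^ 2 = (n k : ℝ)⁻¹ := by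
      intro a _
      rw [hc]
      simp only
      rw [Complex.norm_real, norm_mul, mul_pow, norm_inv, inv_pow,
        Real.norm_of_nonneg (Real.sqrt_nonneg _), Real.sq_sqrt (Nat.cast_nonneg _)]
      rcases hs k a with e | e <;> rw [e] <;> simp
    rw [Finset.sum_congr rfl e1, Finset.sum_const, Finset.card_range, nsmul_eq_mul]
    have : (n k : ℝ) ≠ 0 := by exact_mod_cast (hn0 k).ne'
    field_simp
  have htt : ∀ k, star (t k) * t k = 1 := by
    intro k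
    have := cuntz_sum W hW1 hW2 (c k) (n k)
    rw [hct k, Complex.ofReal_one, one_smul] at this
    exact this
  have htn : ∀ k x, ‖t k x‖ = ‖x‖ := fun k =>
    (norm_map_iff_adjoint_comp_self (t k)).2 (htt k)
  set t' : ℕ → (H →ₗᵢ[ℂ] H) := fun k => ⟨(t k).toLinearMap, htn k⟩ with ht'
  obtain ⟨T, hT1, hT⟩ := exists_block w hw t'
  have hTt : ∀ k, star (W k) * T * W k = t k := by
    intro k
    ext x
    show adjoint (W k) (T (w k x)) = t k x
    rw [hT]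
    have := congrArg (fun B => B (t k x)) (hW1 k)
    exact this
  obtain ⟨m₀, S, hS, hSn⟩ := h.approx T ε hε0
  set k : ℕ := m₀ with hk
  set v : l2 G := π (t k) ξ with hv
  have hvn : ‖v‖ = δ := by
    have e1 := h.normsq (u := t k) (c := 1) (by rw [htt]; simp) ξ
    rw [one_mul] at e1
    exact (pow_left_inj₀ (norm_nonneg _) (norm_nonneg _) two_ne_zero).1 e1
  set y : l2 G := R' k (S (R k ξ)) with hy
  have hfew : Few (1 * M k * m₀ * M' k) y :=
    (((Few.dl' i₀).apply (hR k)).apply hS).apply (hR' k)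
  have hvy : ‖v - y‖ ≤ δ / 2 := by
    have e1 : v - y = (π (star (W k)) * π T * π (W k) - R' k * S * R k) ξ := by
      rw [hv, ← hTt k, h.map_mul, h.map_mul]
      rfl
    have hstar : ‖star (W k)‖ ≤ 1 := by
      rw [ContinuousLinearMap.star_eq_adjoint, LinearIsometryEquiv.norm_map]
      exact hWn k
    have e2 := three_mul_sub hε0.le hε1 ((h.norm_le _).trans hstar) ((h.norm_le _).trans hT1)
      ((h.norm_le _).trans (hWn k)) (hRn' k) hSn (hRn k)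
    rw [e1]
    refine (le_opNorm _ _).trans ?_
    rw [norm_dl, mul_one]
    refine e2.trans ?_
    rw [hε]
    linarith
  obtain ⟨F, hF, hyF⟩ := hfew
  have hv4 : ∑ j ∈ F, ‖v j‖ ^ 4 ≤ 3 * δ ^ 4 / n k := by
    have hnk : (0 : ℝ) < n k := by exact_mod_cast hn0 k
    have e1 : ∀ j, v j = (((√(n k))⁻¹ : ℝ) : ℂ) * ∑ a ∈ Finset.range (n k), (s k a : ℂ) * V a j := by
      intro j
      rw [hv, ht]
      simp only
      rw [map_sum, sum_apply, ← inner_dl, inner_sum, Finset.mul_sum]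
      refine Finset.sum_congr rfl fun a _ => ?_
      rw [map_smul]
      show inner ℂ (dl j) (c k a • (π (W a) ξ)) = _
      rw [inner_smul_right, inner_dl, hc]
      simp only
      push_cast
      ring
    have e2 : ∀ j, ‖v j‖ ^ 4 = ((n k : ℝ)⁻¹) ^ 2 *
        ‖∑ a ∈ Finset.range (n k), (s k a : ℂ) * V a j‖ ^ 4 := by
      intro j
      rw [e1, norm_mul, mul_pow, Complex.norm_real, norm_inv, inv_pow,
        Real.norm_of_nonneg (Real.sqrt_nonneg _)]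
      congr 1
      have : (√(n k : ℝ)) ^ 4 = (n k : ℝ) ^ 2 := by
        have := Real.sq_sqrt hnk.le
        calc (√(n k : ℝ)) ^ 4 = ((√(n k : ℝ)) ^ 2) ^ 2 := by ring
          _ = _ := by rw [this]
      rw [this, inv_pow]
    rw [Finset.sum_congr rfl fun j _ => e2 j, ← Finset.mul_sum]
    calc ((n k : ℝ)⁻¹) ^ 2 * ∑ j ∈ F, ‖∑ a ∈ Finset.range (n k), (s k a : ℂ) * V a j‖ ^ 4
        ≤ ((n k : ℝ)⁻¹) ^ 2 * (3 * n k * (δ ^ 2) ^ 2) := by
          gcongr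
          exact hs4 k F
      _ = 3 * δ ^ 4 / n k := by
          field_simp
  have hfin := far hyF hδ0 hvn hvy hF (hn0 k) hv4
  have : n k = 243 * (M k * k * M' k) + 1 := rfl
  rw [this, one_mul] at hfin
  rw [← hk] at hfin
  omega

end Pool.Agent.Q193.BH
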