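import Pool.Agent.Q193.BH.Defs

/-!
# The regular representation of `C_c(G, Σ)` is a `*`-homomorphism
-/

set_option autoImplicit false

open Topology Filter Set Pool.Agent.W657.TG ContinuousLinearMap

namespace Pool.Agent.Q193.BH

universe u v

variable {X G S : Type u} [TopologicalSpace X] [TopologicalSpace G] [TopologicalSpace S]
  {𝒢 : TopGpd X G} {tw : Twist 𝒢 S}

theorem entry_add (f g : S → ℂ) (γ η : G) :
    tw.entry (f + g) γ η = tw.entry f γ η + tw.entry g γ η := by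
  by_cases h : 𝒢.s γ = 𝒢.s η
  · simp only [Twist.entry_of_eq _ h, Pi.add_apply]
  · simp only [Twist.entry_of_ne _ h, add_zero]

theorem entry_smul (c : ℂ) (f : S → ℂ) (γ η : G) :
    tw.entry (c • f) γ η = c * tw.entry f γ η := by
  by_cases h : 𝒢.s γ = 𝒢.s η
  · simp only [Twist.entry_of_eq _ h, Pi.smul_apply, smul_eq_mul]
  · simp only [Twist.entry_of_ne _ h, mul_zero]

/-- the entries of a product -/
theorem entry_conv {f g : S → ℂ} (hf : tw.IsSection f) (hg : tw.IsSection g)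
    {Tf Tg : l2 G →L[ℂ] l2 G} (hTf : tw.IsRegular f Tf) (hTg : tw.IsRegular g Tg) (γ η : G) :
    (Tf (Tg (dl η))) γ = tw.entry (conv tw f g) γ η := by
  classical
  have h1 := hTf (Tg (dl η)) γ
  have h2 : (fun κ => tw.entry f γ κ * (Tg (dl η)) κ)
      = fun κ => tw.entry f γ κ * tw.entry g κ η := by
    funext κ
    rw [hTg.apply_dl]
  rw [h2] at h1
  by_cases h : 𝒢.s γ = 𝒢.s η
  · rw [Twist.entry_of_eq _ h]
    set σ : S := tw.gpd.mul (tw.lift γ) (tw.gpd.inv (tw.lift η)) with hσ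
    have hsσ : tw.gpd.s σ = 𝒢.r η := Twist.s_mul_lift h
    set F' : G → ℂ := fun κ => if 𝒢.s κ = tw.gpd.s σ then
      f (tw.gpd.mul σ (tw.gpd.inv (tw.lift κ))) * g (tw.lift κ) else 0 with hF'
    set A : Type u := {κ : G // 𝒢.s κ = 𝒢.s η} with hA
    set i : A → G := fun κ => κ.1 with hi
    set j : A → G := fun κ => 𝒢.mul κ.1 (𝒢.inv η) with hj
    have hii : Function.Injective i := Subtype.val_injective
    have hji : Function.Injective j := by
      intro a b hab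
      apply Subtype.ext
      have e1 : 𝒢.s a.1 = 𝒢.r (𝒢.inv η) := by rw [𝒢.r_inv, a.2]
      have e2 : 𝒢.s b.1 = 𝒢.r (𝒢.inv η) := by rw [𝒢.r_inv, b.2]
      exact TopGpd.mul_right_cancel (𝒢 := 𝒢) e1 e2 hab
    have h3 : HasSum ((fun κ => tw.entry f γ κ * tw.entry g κ η) ∘ i) (Tf (Tg (dl η)) γ) := by
      rw [hii.hasSum_iff]
      · exact h1
      · intro κ hκ
        have : 𝒢.s κ ≠ 𝒢.s η := fun h' => hκ ⟨⟨κ, h'⟩, rfl⟩
        rw [Twist.entry_of_ne g this, mul_zero]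
    have h4 : (fun κ => tw.entry f γ κ * tw.entry g κ η) ∘ i = F' ∘ j := by
      funext κ
      obtain ⟨κ, hκ⟩ := κ
      show tw.entry f γ κ * tw.entry g κ η = F' (𝒢.mul κ (𝒢.inv η))
      have e1 : 𝒢.s κ = 𝒢.r (𝒢.inv η) := by rw [𝒢.r_inv, hκ]
      have e2 : 𝒢.s (𝒢.mul κ (𝒢.inv η)) = tw.gpd.s σ := by
        rw [𝒢.s_mul _ _ e1, 𝒢.s_inv, hsσ]
      rw [Twist.entry_of_eq f (h.trans hκ.symm), Twist.entry_of_eq g hκ]
      simp only [hF']
      rw [if_pos e2]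
      have h5 := Twist.proj_mul_lift (tw := tw) hκ
      have h6 : tw.gpd.s (tw.gpd.mul (tw.lift κ) (tw.gpd.inv (tw.lift η))) = tw.gpd.s σ := by
        rw [Twist.s_mul_lift hκ, hsσ]
      have h7 := term_lift hf hg h6
      rw [h5] at h7
      rw [h7]
      congr 2
      have a1 : tw.gpd.s (tw.lift κ) = tw.gpd.r (tw.gpd.inv (tw.lift η)) := by
        rw [tw.gpd.r_inv, tw.s_lift, tw.s_lift, hκ]
      rw [TopGpd.mul_inv_rev a1, TopGpd.inv_inv, hσ]
      have a2 : tw.gpd.s (tw.lift γ) = tw.gpd.s (tw.lift η) := by rw [tw.s_lift, tw.s_lift, h]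
      have a3 : tw.gpd.s (tw.lift η) = tw.gpd.s (tw.lift κ) := by rw [tw.s_lift, tw.s_lift, hκ]
      exact (TopGpd.mul_mul_inv a2 a3).symm
    rw [h4, hji.hasSum_iff] at h3
    · have h8 : conv tw f g σ = ∑' κ, F' κ := by
        unfold conv
        refine tsum_congr fun κ => ?_
        simp only [hF']
      rw [h8]
      exact h3.tsum_eq.symm
    · intro κ hκ
      simp only [hF']
      rw [if_neg]
      intro h'
      apply hκ
      rw [hsσ] at h'
      refine ⟨⟨𝒢.mul κ η, 𝒢.s_mul _ _ h'⟩, ?_⟩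
      exact TopGpd.mul_inv_cancel_right h'
  · rw [Twist.entry_of_ne _ h]
    have h3 : (fun κ => tw.entry f γ κ * tw.entry g κ η) = fun _ => 0 := by
      funext κ
      by_cases h4 : 𝒢.s γ = 𝒢.s κ
      · have h5 : 𝒢.s κ ≠ 𝒢.s η := fun h' => h (h4.trans h')
        rw [Twist.entry_of_ne g h5, mul_zero]
      · rw [Twist.entry_of_ne f h4, zero_mul]
    rw [h3] at h1
    exact h1.unique hasSum_zero

theorem entry_invol (f : S → ℂ) (γ η : G) :
    tw.entry (invol tw f) γ η = (starRingEnd ℂ) (tw.entry f η γ) := by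
  by_cases h : 𝒢.s γ = 𝒢.s η
  · rw [Twist.entry_of_eq _ h, Twist.entry_of_eq _ h.symm]
    unfold invol
    rw [TopGpd.mul_inv_rev (by rw [tw.gpd.r_inv, tw.s_lift, tw.s_lift, h]), TopGpd.inv_inv]
  · rw [Twist.entry_of_ne _ h, Twist.entry_of_ne _ (fun h' => h h'.symm), map_zero]

section rep

variable [T2Space G] (h𝒢 : 𝒢.Etale)

/-- the operator `λ(f)` -/
noncomputable def lamOp (f : Cc tw) : l2 G →L[ℂ] l2 G :=
  (Twist.exists_regular h𝒢 f.2).choose

theorem lamOp_spec (f : Cc tw) : tw.IsRegular f (lamOp h𝒢 f) :=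
  (Twist.exists_regular h𝒢 f.2).choose_spec

theorem lamOp_apply (f : Cc tw) (γ η : G) : (lamOp h𝒢 f (dl η)) γ = tw.entry f γ η :=
  (lamOp_spec h𝒢 f).apply_dl γ η

theorem op_ext2 {T T' : l2 G →L[ℂ] l2 G} (h : ∀ γ η, (T (dl η)) γ = (T' (dl η)) γ) : T = T' :=
  op_ext fun η => lp.ext (funext fun γ => h γ η)

/-- the regular representation -/
noncomputable def lam : Cc tw →ₗ[ℂ] (l2 G →L[ℂ] l2 G) where
  toFun := lamOp h𝒢
  map_add' f g := by
    apply op_ext2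
    intro γ η
    rw [lamOp_apply]
    show tw.entry ((f : S → ℂ) + g) γ η = (lamOp h𝒢 f (dl η)) γ + (lamOp h𝒢 g (dl η)) γ
    rw [lamOp_apply, lamOp_apply, entry_add]
  map_smul' c f := by
    apply op_ext2
    intro γ η
    rw [lamOp_apply]
    show tw.entry (c • (f : S → ℂ)) γ η = c * (lamOp h𝒢 f (dl η)) γ
    rw [lamOp_apply, entry_smul]

theorem lam_spec (f : Cc tw) : tw.IsRegular f (lam h𝒢 f) := lamOp_spec h𝒢 f

theorem lam_apply (f : Cc tw) (γ η : G) : (lam h𝒢 f (dl η)) γ = tw.entry f γ η :=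
  lamOp_apply h𝒢 f γ η

theorem lam_isStarHom : IsStarHom tw (lam h𝒢 : Cc tw →ₗ[ℂ] (l2 G →L[ℂ] l2 G)) := by
  refine ⟨fun f g h hh => ?_, fun f g hg => ?_⟩
  · apply op_ext2
    intro γ η
    rw [lam_apply, hh]
    exact (entry_conv f.2 g.2 (lam_spec h𝒢 f) (lam_spec h𝒢 g) γ η).symm
  · apply op_ext2
    intro γ η
    rw [lam_apply, hg, entry_invol, ContinuousLinearMap.star_eq_adjoint, adj_entry, lam_apply]

theorem lam_ne_zero {f : Cc tw} (hf : f ≠ 0) : lam h𝒢 f ≠ 0 := by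
  have h1 : ∃ σ, (f : S → ℂ) σ ≠ 0 := by
    by_contra hno
    push Not at hno
    apply hf
    apply Subtype.ext
    funext σ
    exact hno σ
  obtain ⟨σ, hσ⟩ := h1
  intro h0
  obtain ⟨z, hz⟩ := Twist.exists_phase tw σ
  have hs : 𝒢.s (tw.proj σ) = 𝒢.s (𝒢.unit (tw.gpd.s σ)) := by rw [tw.s_proj, 𝒢.s_unit]
  have h2 := lam_apply h𝒢 f (tw.proj σ) (𝒢.unit (tw.gpd.s σ))
  rw [h0, Twist.entry_of_eq _ hs] at h2
  apply hσ
  rw [hz, f.2.equivariant, ← h2]
  simp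

/-- a vector with at most `n` nonzero coordinates -/
def Few {G : Type u} (n : ℕ) (v : l2 G) : Prop :=
  ∃ F : Finset G, F.card ≤ n ∧ ∀ γ ∉ F, v γ = 0

/-- an operator all of whose columns have at most `m` nonzero entries -/
def Sparse {G : Type u} (m : ℕ) (T : l2 G →L[ℂ] l2 G) : Prop := ∀ η, Few m (T (dl η))

theorem Few.dl' {G : Type u} (η : G) : Few 1 (dl η : l2 G) := by
  refine ⟨{η}, by simp, fun γ hγ => dl_ne ?_⟩
  simpa using hγ

theorem Few.apply {G : Type u} {n m : ℕ} {v : l2 G} {T : l2 G →L[ℂ] l2 G} (hv : Few n v)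
    (hT : Sparse m T) : Few (n * m) (T v) := by
  classical
  obtain ⟨F, hF, hFv⟩ := hv
  choose E hE hET using hT
  refine ⟨F.biUnion E, ?_, ?_⟩
  · refine (Finset.card_biUnion_le_card_mul F E m fun i _ => hE i).trans ?_
    exact Nat.mul_le_mul_right m hF
  · intro γ hγ
    have h1 := apply_hasSum T v γ
    have h2 : (fun κ => v κ * (T (dl κ)) γ) = fun _ => 0 := by
      funext κ
      by_cases hκ : κ ∈ F
      · have : γ ∉ E κ := fun h => hγ (Finset.mem_biUnion.2 ⟨κ, hκ, h⟩)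
        rw [hET κ γ this, mul_zero]
      · rw [hFv κ hκ, zero_mul]
    rw [h2] at h1
    exact h1.unique hasSum_zero

theorem lam_sparse (f : Cc tw) : ∃ m, Sparse m (lam h𝒢 f) := by
  set C : Set G := tw.proj '' (tsupport (f : S → ℂ)) with hC
  have hCc : IsCompact C := f.2.hasCompactSupport.isCompact.image tw.continuous_proj
  obtain ⟨N, hN⟩ := TopGpd.finite_fibre h𝒢.1 hCc
  refine ⟨N, fun η => ?_⟩
  set B : Set G := {γ | 𝒢.s γ = 𝒢.s η ∧ 𝒢.mul γ (𝒢.inv η) ∈ C} with hB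
  have hmaps : Set.MapsTo (fun γ => 𝒢.mul γ (𝒢.inv η)) B {g ∈ C | 𝒢.s g = 𝒢.r η} := by
    intro γ hγ
    refine ⟨hγ.2, ?_⟩
    show 𝒢.s (𝒢.mul γ (𝒢.inv η)) = 𝒢.r η
    rw [𝒢.s_mul _ _ (by rw [𝒢.r_inv, hγ.1]), 𝒢.s_inv]
  have hinj : Set.InjOn (fun γ => 𝒢.mul γ (𝒢.inv η)) B := by
    intro γ hγ κ hκ h
    exact TopGpd.mul_right_cancel (𝒢 := 𝒢) (by rw [𝒢.r_inv, hγ.1]) (by rw [𝒢.r_inv, hκ.1]) h
  have hfin : B.Finite := Set.Finite.of_injOn hmaps hinj (hN (𝒢.r η)).1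
  refine ⟨hfin.toFinset, ?_, ?_⟩
  · rw [← Set.ncard_eq_toFinset_card B hfin]
    exact (Set.ncard_le_ncard_of_injOn _ hmaps hinj (hN (𝒢.r η)).1).trans (hN (𝒢.r η)).2
  · intro γ hγ
    rw [Set.Finite.mem_toFinset] at hγ
    rw [lam_apply]
    by_cases h : 𝒢.s γ = 𝒢.s η
    · rw [Twist.entry_of_eq _ h]
      by_contra hne
      apply hγ
      refine ⟨h, ?_⟩
      rw [← Twist.proj_mul_lift (tw := tw) h]
      exact ⟨_, subset_tsupport _ hne, rfl⟩
    · exact Twist.entry_of_ne _ h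

end rep

end Pool.Agent.Q193.BH
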