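import Pool.Agent.Q193.BH.Main

/-!
# The definitions of the final statement
-/

set_option autoImplicit false

open Pool.Agent.W657.TG
open scoped ENNReal

namespace Pool.Agent.Q193.BH

universe u v

variable {X G S : Type u} [TopologicalSpace X] [TopologicalSpace G] [TopologicalSpace S]
  {𝒢 : TopGpd X G}

/-- The algebra `B(K)` of bounded operators on the Hilbert space `K`. -/
abbrev Op (K : Type v) [NormedAddCommGroup K] [InnerProductSpace ℂ K] : Type v := K →L[ℂ] K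

/-- `ρ : C_c(G, Σ) → B(K)` is a `*`-homomorphism. (`ρ` is a function on all functions on `Σ`, but
only its values on `C_c(G, Σ)` matter.) -/
structure IsRep (tw : Twist 𝒢 S) {K : Type v} [NormedAddCommGroup K] [InnerProductSpace ℂ K]
    [CompleteSpace K] (ρ : (S → ℂ) → Op K) : Prop where
  map_add : ∀ f g, tw.IsSection f → tw.IsSection g → ρ (f + g) = ρ f + ρ g
  map_smul : ∀ (c : ℂ) f, tw.IsSection f → ρ (c • f) = c • ρ f
  map_conv : ∀ f g, tw.IsSection f → tw.IsSection g → ρ (conv tw f g) = ρ f * ρ g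
  map_invol : ∀ f, tw.IsSection f → ρ (invol tw f) = star (ρ f)

/-- The universal norm `‖f‖ = sup ‖ρ(f)‖` over all `*`-representations `ρ` of `C_c(G, Σ)` on Hilbert
spaces. -/
noncomputable def fullNorm (tw : Twist 𝒢 S) (f : S → ℂ) : ℝ≥0∞ :=
  ⨆ (K : Type u) (_ : NormedAddCommGroup K) (_ : InnerProductSpace ℂ K) (_ : CompleteSpace K)
    (ρ : (S → ℂ) → Op K) (_ : IsRep tw ρ), ‖ρ f‖ₑ

/-- The image of `C_c(G, Σ)` under `ι` is dense in `B(K)`. -/
def HasDenseRange (tw : Twist 𝒢 S) {K : Type v} [NormedAddCommGroup K] [InnerProductSpace ℂ K]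
    (ι : (S → ℂ) → Op K) : Prop :=
  ∀ (x : Op K) (ε : ℝ), 0 < ε → ∃ f, tw.IsSection f ∧ ‖x - ι f‖ < ε

/-- `B(K)` is isomorphic to the full twisted groupoid C*-algebra `C*(G, Σ)`, the completion of
`C_c(G, Σ)` in the universal norm: there is a `*`-homomorphism of `C_c(G, Σ)` into `B(K)` with dense
range which is isometric for the universal norm. -/
def IsFullAlgebra (tw : Twist 𝒢 S) (K : Type v) [NormedAddCommGroup K] [InnerProductSpace ℂ K]
    [CompleteSpace K] : Prop :=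
  ∃ ι : (S → ℂ) → Op K, IsRep tw ι ∧ HasDenseRange tw ι ∧
    ∀ f, tw.IsSection f → ‖ι f‖ₑ = fullNorm tw f

/-- the linear map on `Cc` given by a representation -/
def IsRep.lin {tw : Twist 𝒢 S} {K : Type v} [NormedAddCommGroup K] [InnerProductSpace ℂ K]
    [CompleteSpace K] {ρ : (S → ℂ) → Op K} (h : IsRep tw ρ) : Cc tw →ₗ[ℂ] (K →L[ℂ] K) where
  toFun f := ρ f
  map_add' f g := h.map_add f g f.2 g.2
  map_smul' c f := h.map_smul c f f.2

theorem IsRep.isStarHom {tw : Twist 𝒢 S} {K : Type v} [NormedAddCommGroup K]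
    [InnerProductSpace ℂ K] [CompleteSpace K] {ρ : (S → ℂ) → Op K} (h : IsRep tw ρ) :
    IsStarHom tw h.lin := by
  refine ⟨fun f g k hk => ?_, fun f g hg => ?_⟩
  · show ρ k = ρ f * ρ g
    rw [hk, h.map_conv f g f.2 g.2]
  · show ρ g = star (ρ f)
    rw [hg, h.map_invol f f.2]

theorem main_red [T2Space G] [T2Space S] (h𝒢 : 𝒢.Etale) {tw : Twist 𝒢 S} {H : Type v}
    [NormedAddCommGroup H] [InnerProductSpace ℂ H] [CompleteSpace H]
    (hH : ¬ FiniteDimensional ℂ H) {ι : (S → ℂ) → Op H} (h1 : IsRep tw ι)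
    (h2 : HasDenseRange tw ι) :
    ∃ (f : S → ℂ) (T : l2 G →L[ℂ] l2 G), tw.IsSection f ∧ tw.IsRegular f T ∧ ‖ι f‖ < ‖T‖ := by
  have hnt : Nontrivial H := by
    by_contra hno
    rw [not_nontrivial_iff_subsingleton] at hno
    exact hH inferInstance
  by_contra hno
  push Not at hno
  have h3 : DenseRange (h1.lin : Cc tw → (H →L[ℂ] H)) := by
    rw [Metric.denseRange_iff]
    intro x ε hε
    obtain ⟨f, hf, hfx⟩ := h2 x ε hε
    refine ⟨⟨f, hf⟩, ?_⟩
    rw [dist_eq_norm]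
    exact hfx
  obtain ⟨π, hπ⟩ := exists_sparseRep h𝒢 h1.lin h1.isStarHom h3
    (fun f T hT => hno f T f.2 hT)
  exact no_sparseRep hH π hπ

open Classical in
/-- the regular representation as a function -/
noncomputable def lamFun [T2Space G] (h𝒢 : 𝒢.Etale) (tw : Twist 𝒢 S) (f : S → ℂ) : Op (l2 G) :=
  if hf : tw.IsSection f then lam h𝒢 (⟨f, hf⟩ : Cc tw) else 0

theorem lamFun_of [T2Space G] (h𝒢 : 𝒢.Etale) {tw : Twist 𝒢 S} {f : S → ℂ}
    (hf : tw.IsSection f) : lamFun h𝒢 tw f = lam h𝒢 (⟨f, hf⟩ : Cc tw) := by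
  unfold lamFun
  rw [dif_pos hf]

theorem lamFun_isRep [T2Space G] [T2Space S] (h𝒢 : 𝒢.Etale) (tw : Twist 𝒢 S) :
    IsRep tw (lamFun h𝒢 tw) := by
  refine ⟨fun f g hf hg => ?_, fun c f hf => ?_, fun f g hf hg => ?_, fun f hf => ?_⟩
  · rw [lamFun_of h𝒢 hf, lamFun_of h𝒢 hg, lamFun_of h𝒢 (isSection_add tw hf hg), ← map_add]
    rfl
  · rw [lamFun_of h𝒢 hf, lamFun_of h𝒢 (isSection_smul tw c hf), ← map_smul]
    rfl
  · rw [lamFun_of h𝒢 hf, lamFun_of h𝒢 hg, lamFun_of h𝒢 (isSection_conv h𝒢 hf hg)]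
    exact (lam_isStarHom h𝒢).map_mul ⟨f, hf⟩ ⟨g, hg⟩ ⟨_, isSection_conv h𝒢 hf hg⟩ rfl
  · rw [lamFun_of h𝒢 hf, lamFun_of h𝒢 (isSection_invol tw hf)]
    exact (lam_isStarHom h𝒢).map_star ⟨f, hf⟩ ⟨_, isSection_invol tw hf⟩ rfl

theorem le_fullNorm [T2Space G] [T2Space S] (h𝒢 : 𝒢.Etale) {tw : Twist 𝒢 S} {f : S → ℂ}
    (hf : tw.IsSection f) {T : l2 G →L[ℂ] l2 G} (hT : tw.IsRegular f T) :
    ‖T‖ₑ ≤ fullNorm tw f := by
  have h3 : lamFun h𝒢 tw f = T := by
    rw [lamFun_of h𝒢 hf]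
    apply op_ext2
    intro γ η
    rw [lam_apply, hT.apply_dl]
  rw [← h3]
  unfold fullNorm
  refine le_iSup_of_le (l2 G) ?_
  refine le_iSup_of_le inferInstance ?_
  refine le_iSup_of_le inferInstance ?_
  refine le_iSup_of_le inferInstance ?_
  refine le_iSup_of_le (lamFun h𝒢 tw) ?_
  exact le_iSup_of_le (lamFun_isRep h𝒢 tw) le_rfl

theorem not_full [T2Space G] [T2Space S] (h𝒢 : 𝒢.Etale) {tw : Twist 𝒢 S} {H : Type v}
    [NormedAddCommGroup H] [InnerProductSpace ℂ H] [CompleteSpace H]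
    (hH : ¬ FiniteDimensional ℂ H) : ¬ IsFullAlgebra tw H := by
  rintro ⟨ι, h1, h2, h3⟩
  obtain ⟨f, T, hf, hT, hlt⟩ := main_red h𝒢 hH h1 h2
  have h4 := le_fullNorm h𝒢 hf hT
  rw [← h3 f hf] at h4
  have h5 : ‖T‖ ≤ ‖ι f‖ := by
    rw [← toReal_enorm, ← toReal_enorm]
    exact ENNReal.toReal_mono (by simp) h4
  exact absurd hlt (not_lt.2 h5)

end Pool.Agent.Q193.BH
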